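import Pool.Agent.Helper28.T3.StC

/-!
# Project T3, module CLSq: the number of reduced forms in a class modulo `q`

Same proof as module CLS (helper34) with `6` replaced by `q`.
-/

set_option autoImplicit false

namespace Pool.Agent.Helper2.T3

open Pool.Agent.Helper28.T3

/-- `a⁴ ≤ X` -/
private lemma a4 {X : ℝ} {a b c d : ℤ} (h : GX X a b c d) : ((a : ℤ) : ℝ) ^ 4 ≤ X := by
  obtain ⟨⟨h1, h2, h3, h4, h5, -, h7⟩, hX⟩ := h
  have id : cF a b c d ^ 2 + a ^ 2 * cD a b c d = 4 * cA a b c ^ 3 := by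
    unfold cF cD cA cB; ring
  obtain ⟨m, hm⟩ : ∃ m, m = cA a b c := ⟨_, rfl⟩
  rw [← hm] at id h4 h5
  have e1 : a ^ 2 * (3 * m ^ 2) ≤ 4 * m ^ 3 := by
    have : a ^ 2 * (3 * m ^ 2) ≤ a ^ 2 * cD a b c d :=
      mul_le_mul_of_nonneg_left h5 (sq_nonneg a)
    nlinarith [sq_nonneg (cF a b c d)]
  have e2 : 3 * a ^ 2 ≤ 4 * m := by
    by_contra hcon
    push Not at hcon
    have hm2 : 0 < m ^ 2 := by positivity
    nlinarith
  have e3 : (3 * a ^ 2) ^ 2 ≤ (4 * m) ^ 2 := by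
    apply pow_le_pow_left₀ (by positivity) e2
  have e4 : 27 * a ^ 4 ≤ 16 * cD a b c d := by nlinarith
  have e5 : (27 : ℝ) * (a : ℝ) ^ 4 ≤ 16 * ((cD a b c d : ℤ) : ℝ) := by exact_mod_cast e4
  have e6 : (0 : ℝ) ≤ (a : ℝ) ^ 4 := by positivity
  nlinarith

/-- sums of reciprocals -/
private lemma harm (n : ℕ) (A : Finset ℤ) (hA : ∀ a ∈ A, 1 ≤ a ∧ a ≤ n) :
    ∑ a ∈ A, 1 / ((a : ℤ) : ℝ) ≤ 1 + Real.log n := by
  classical
  have hsub : A ⊆ (Finset.range n).image (fun i : ℕ => (i : ℤ) + 1) := by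
    intro a ha
    obtain ⟨h1, h2⟩ := hA a ha
    rw [Finset.mem_image]
    exact ⟨(a - 1).toNat, Finset.mem_range.2 (by omega), by omega⟩
  have h1 : ∑ a ∈ A, 1 / ((a : ℤ) : ℝ) ≤
      ∑ a ∈ (Finset.range n).image (fun i : ℕ => (i : ℤ) + 1), 1 / ((a : ℤ) : ℝ) := by
    apply Finset.sum_le_sum_of_subset_of_nonneg hsub
    intro a ha _
    rw [Finset.mem_image] at ha
    obtain ⟨i, _, rfl⟩ := ha
    positivity
  rw [Finset.sum_image (by intro i _ j _ hij; simpa using hij)] at h1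
  refine h1.trans ?_
  have h2 := harmonic_le_one_add_log n
  refine le_trans (le_of_eq ?_) h2
  unfold harmonic
  push_cast
  refine Finset.sum_congr rfl fun i _ => ?_
  rw [one_div]

/-- CLSq. -/
theorem hCLSq : StABCq → StWB → StIAq → StCLSq := by
  intro hABC hWB hIA q hq
  obtain ⟨C, hC, hIA⟩ := hIA q hq
  refine ⟨C + 15, by linarith, fun X hX a0 b0 c0 d0 T hT => ?_⟩
  have hq1 : (1 : ℝ) ≤ (q : ℝ) := by exact_mod_cast hq
  have hq0 : (0 : ℝ) < (q : ℝ) := by linarith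
  have hX0 : 0 < X := by linarith
  classical
  obtain ⟨A, hA⟩ : ∃ A : Finset ℤ, A = T.image (fun t => t.1) := ⟨_, rfl⟩
  have hA1 : ∀ a ∈ A, 1 ≤ a ∧ a % (q : ℤ) = a0 ∧ ((a : ℤ) : ℝ) ^ 4 ≤ X := by
    intro a ha
    rw [hA, Finset.mem_image] at ha
    obtain ⟨t, ht, rfl⟩ := ha
    obtain ⟨h1, -, -, -, h5⟩ := hT t ht
    exact ⟨h5.1.1, h1, a4 h5⟩
  have hcard : (T.card : ℝ) = ∑ a ∈ A, ((T.filter (fun t => t.1 = a)).card : ℝ) := by
    rw [hA, Finset.card_eq_sum_card_image (fun t => t.1) T]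
    push_cast
    rfl
  have hfib : ∀ a ∈ A, ((T.filter (fun t => t.1 = a)).card : ℝ) ≤
      ((a : ℝ) / q + 1) *
        (IW X a / ((q : ℝ) ^ 2 * (a : ℝ) ^ 3) + 3 * Real.sqrt X / a + 1) := by
    intro a ha
    have h := hABC q hq X a b0 c0 d0 ((T.filter (fun t => t.1 = a)).image (fun t => t.2)) hX0
      (hA1 a ha).1 (by
        intro t ht
        rw [Finset.mem_image] at ht
        obtain ⟨u, hu, rfl⟩ := ht
        rw [Finset.mem_filter] at hu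
        obtain ⟨hu1, rfl⟩ := hu
        obtain ⟨-, h2, h3, h4, h5⟩ := hT u hu1
        exact ⟨h2, h3, h4, h5⟩)
    rw [Finset.card_image_of_injOn] at h
    · exact h
    · intro u hu v hv huv
      rw [Finset.coe_filter] at hu hv
      exact Prod.ext (hu.2.trans hv.2.symm) huv
  -- powers of X
  obtain ⟨Y, hY⟩ : ∃ Y : ℝ, Y = X ^ (1 / 4 : ℝ) := ⟨_, rfl⟩
  have hY4 : Y ^ 4 = X := by
    rw [hY, ← Real.rpow_natCast, ← Real.rpow_mul hX0.le]
    norm_num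
  have hY1 : 1 ≤ Y := by rw [hY]; exact Real.one_le_rpow hX (by norm_num)
  have hY0 : 0 < Y := by linarith
  have hs : Real.sqrt X = Y ^ 2 := by
    rw [← hY4, show Y ^ 4 = (Y ^ 2) ^ 2 by ring, Real.sqrt_sq (by positivity)]
  have hs1 : 1 ≤ Real.sqrt X := by rw [hs]; exact one_le_pow₀ hY1
  have haY : ∀ a ∈ A, ((a : ℤ) : ℝ) ≤ Y := by
    intro a ha
    have h1 := (hA1 a ha).2.2
    rw [← hY4] at h1
    exact le_of_pow_le_pow_left₀ (by norm_num) hY0.le h1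
  obtain ⟨n, hn⟩ : ∃ n : ℕ, n = ⌊Y⌋₊ := ⟨_, rfl⟩
  have hnY : (n : ℝ) ≤ Y := by rw [hn]; exact Nat.floor_le hY0.le
  have hn1 : 1 ≤ n := by rw [hn]; exact Nat.le_floor (by simpa using hY1)
  have han : ∀ a ∈ A, 1 ≤ a ∧ a ≤ (n : ℤ) := by
    intro a ha
    have h1 := (hA1 a ha).1
    refine ⟨h1, ?_⟩
    have h2 : a.toNat ≤ n := by
      rw [hn]
      apply Nat.le_floor
      have h3 : ((a.toNat : ℕ) : ℝ) = ((a : ℤ) : ℝ) := by
        have : ((a.toNat : ℕ) : ℤ) = a := Int.toNat_of_nonneg (by omega)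
        exact_mod_cast this
      rw [h3]
      exact haY a ha
    omega
  have hcA : (A.card : ℝ) ≤ Y := by
    have h1 : A ⊆ Finset.Icc (1 : ℤ) n := by
      intro a ha
      rw [Finset.mem_Icc]
      exact han a ha
    have h2 := Finset.card_le_card h1
    rw [Int.card_Icc] at h2
    have h3 : A.card ≤ n := by omega
    exact le_trans (by exact_mod_cast h3) hnY
  have hharm : ∑ a ∈ A, 1 / ((a : ℤ) : ℝ) ≤ 1 + 12 / 5 * Y ^ (5 / 12 : ℝ) := by
    refine (harm n A han).trans ?_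
    have h1 : Real.log n ≤ Real.log Y := Real.log_le_log (by exact_mod_cast hn1) hnY
    have h2 := Real.log_le_rpow_div hY0.le (show (0 : ℝ) < 5 / 12 by norm_num)
    have h3 : Y ^ (5 / 12 : ℝ) / (5 / 12) = 12 / 5 * Y ^ (5 / 12 : ℝ) := by ring
    rw [h3] at h2
    linarith
  obtain ⟨P, hP⟩ : ∃ P : ℝ, P = X ^ (5 / 6 : ℝ) := ⟨_, rfl⟩
  have hP0 : 0 ≤ P := by rw [hP]; positivity
  have hterm : ∀ a ∈ A, ((T.filter (fun t => t.1 = a)).card : ℝ) ≤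
      1 / (q : ℝ) ^ 3 * (IW X a / (a : ℝ) ^ 2) + 2 * P * (1 / (a : ℝ)) + 8 * Real.sqrt X := by
    intro a ha
    refine (hfib a ha).trans ?_
    have ha1 : (1 : ℝ) ≤ (a : ℝ) := by exact_mod_cast (hA1 a ha).1
    have ha0 : (0 : ℝ) < (a : ℝ) := by linarith
    obtain ⟨-, hI0, hI⟩ := hWB X a hX0 ha0
    have hI := hI ha1
    rw [← hP] at hI
    have haY' := haY a ha
    have e1 : ((a : ℝ) / q + 1) *
        (IW X a / ((q : ℝ) ^ 2 * (a : ℝ) ^ 3) + 3 * Real.sqrt X / a + 1) =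
        1 / (q : ℝ) ^ 3 * (IW X a / (a : ℝ) ^ 2) + IW X a / ((q : ℝ) ^ 2 * (a : ℝ) ^ 3) +
          (3 * Real.sqrt X / q + 3 * Real.sqrt X / a + a / q + 1) := by
      field_simp
      ring
    have e2 : IW X a / ((q : ℝ) ^ 2 * (a : ℝ) ^ 3) ≤ 2 * P * (1 / (a : ℝ)) := by
      have e0 : IW X a / ((q : ℝ) ^ 2 * (a : ℝ) ^ 3) ≤ IW X a / (a : ℝ) ^ 3 := by
        apply div_le_div_of_nonneg_left hI0 (by positivity)
        have : (1 : ℝ) ≤ (q : ℝ) ^ 2 := one_le_pow₀ hq1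
        nlinarith [show (0 : ℝ) < (a : ℝ) ^ 3 by positivity]
      refine e0.trans ?_
      rw [div_le_iff₀ (by positivity)]
      calc IW X a ≤ 2 * (a : ℝ) ^ 2 * P := hI
        _ = 2 * P * (1 / (a : ℝ)) * (a : ℝ) ^ 3 := by
            field_simp
    have e3 : 3 * Real.sqrt X / a ≤ 3 * Real.sqrt X := div_le_self (by positivity) ha1
    have e3' : 3 * Real.sqrt X / q ≤ 3 * Real.sqrt X := div_le_self (by positivity) hq1
    have e4 : (a : ℝ) ≤ Real.sqrt X := by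
      rw [hs]
      nlinarith
    have e5 : (a : ℝ) / q ≤ a := div_le_self ha0.le hq1
    rw [e1]
    linarith
  have hIA' := hIA X hX a0 A (fun a ha => ⟨(hA1 a ha).1, (hA1 a ha).2.1⟩)
  have hsum : (T.card : ℝ) ≤ 1 / (q : ℝ) ^ 3 * (∑ a ∈ A, IW X a / (a : ℝ) ^ 2) +
      2 * P * (∑ a ∈ A, 1 / ((a : ℤ) : ℝ)) + A.card * (8 * Real.sqrt X) := by
    rw [hcard]
    refine (Finset.sum_le_sum hterm).trans (le_of_eq ?_)
    rw [Finset.sum_add_distrib, Finset.sum_add_distrib, Finset.mul_sum, Finset.mul_sum,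
      Finset.sum_const, nsmul_eq_mul]
  have hE : EX X = X ^ (15 / 16 : ℝ) := rfl
  have hE0 : 0 ≤ EX X := by rw [hE]; positivity
  have p1 : P ≤ EX X := by
    rw [hP, hE]
    exact Real.rpow_le_rpow_of_exponent_le hX (by norm_num)
  have p2 : P * Y ^ (5 / 12 : ℝ) = EX X := by
    rw [hP, hE, hY, ← Real.rpow_mul hX0.le, ← Real.rpow_add hX0]
    norm_num
  have p3 : Y * Real.sqrt X ≤ EX X := by
    rw [hE, hY, Real.sqrt_eq_rpow, ← Real.rpow_add hX0]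
    exact Real.rpow_le_rpow_of_exponent_le hX (by norm_num)
  have q1 : 2 * P * (∑ a ∈ A, 1 / ((a : ℤ) : ℝ)) ≤ 7 * EX X := by
    have h1 : 2 * P * (∑ a ∈ A, 1 / ((a : ℤ) : ℝ)) ≤ 2 * P * (1 + 12 / 5 * Y ^ (5 / 12 : ℝ)) :=
      mul_le_mul_of_nonneg_left hharm (by positivity)
    have h2 : 2 * P * (1 + 12 / 5 * Y ^ (5 / 12 : ℝ)) =
        2 * P + 24 / 5 * (P * Y ^ (5 / 12 : ℝ)) := by
      ring
    rw [h2, p2] at h1
    linarith
  have q2 : A.card * (8 * Real.sqrt X) ≤ 8 * EX X := by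
    have h1 : A.card * (8 * Real.sqrt X) ≤ Y * (8 * Real.sqrt X) :=
      mul_le_mul_of_nonneg_right hcA (by positivity)
    linarith
  have q3 : 1 / (q : ℝ) ^ 3 * (∑ a ∈ A, IW X a / (a : ℝ) ^ 2) ≤
      Real.pi * X / (4 * Real.sqrt 3 * (q : ℝ) ^ 4) + C * EX X := by
    have h0 : 1 / (q : ℝ) ^ 3 * (∑ a ∈ A, IW X a / (a : ℝ) ^ 2) ≤
        1 / (q : ℝ) ^ 3 * (Real.pi * X / (4 * Real.sqrt 3 * q) + C * EX X) :=
      mul_le_mul_of_nonneg_left hIA' (by positivity)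
    have h1 : 1 / (q : ℝ) ^ 3 * (Real.pi * X / (4 * Real.sqrt 3 * q)) =
        Real.pi * X / (4 * Real.sqrt 3 * (q : ℝ) ^ 4) := by
      have : Real.sqrt 3 ≠ 0 := by positivity
      field_simp
    have h2 : 0 ≤ C * EX X := mul_nonneg hC hE0
    have h3 : 1 / (q : ℝ) ^ 3 ≤ 1 := by
      rw [div_le_one (by positivity)]
      exact one_le_pow₀ hq1
    have h4 : 1 / (q : ℝ) ^ 3 * (C * EX X) ≤ 1 * (C * EX X) :=
      mul_le_mul_of_nonneg_right h3 h2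
    rw [mul_add, h1] at h0
    linarith
  linarith

end Pool.Agent.Helper2.T3
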